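import Mathlib
import Pool.Agent.H41.AL.Defs2
import Pool.Agent.H41.CO.LLL

/-! AG STAGE: one stage of the random choice, by the local lemma. -/

set_option autoImplicit false

namespace Pool.Agent.H111.AG

open Finset Equiv Pool.Agent.H41.AL Pool.Agent.Helper208.Rainbow

section
variable {V : Type} [Fintype V] [DecidableEq V] (G : SimpleGraph V) [DecidableRel G.Adj]
  {n L : ℕ} (U : Finset V) (σ : V → V → Perm (Fin n)) (M : V → Fin L → Perm (Fin n))

/-- the bad rows -/
def bad (v : V) (k : V → Fin L) : Set (Fin n) :=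
  {j | ∃ v' ∈ U, G.Adj v v' ∧ M v' (k v') j = σ v v' (M v (k v) j)}

omit [Fintype V] [DecidableEq V] [DecidableRel G.Adj] in
lemma bad_dep (v : V) (k k' : V → Fin L) (h : k v = k' v)
    (h' : ∀ u ∈ U, G.Adj v u → k u = k' u) : bad G U σ M v k = bad G U σ M v k' := by
  ext j
  constructor
  · rintro ⟨v', h1, h2, h3⟩
    refine ⟨v', h1, h2, ?_⟩
    rw [← h, ← h' v' h1 h2]
    exact h3
  · rintro ⟨v', h1, h2, h3⟩
    refine ⟨v', h1, h2, ?_⟩
    rw [h, h' v' h1 h2]
    exact h3

lemma pair_le (v v' : V) (h : v ≠ v') (hM : Disj (M v')) (j : Fin n) (s : Perm (Fin n)) :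
    (univ.filter fun k : V → Fin L => M v' (k v') j = s (M v (k v) j)).card * L ≤
      Fintype.card (V → Fin L) := by
  classical
  set R : Finset (Fin L × Fin L) := univ.filter fun p => M v' p.2 j = s (M v p.1 j) with hR
  have h1 := pair_card (α := Fin L) v v' h R
  have h2 : (univ.filter fun k : V → Fin L => (k v, k v') ∈ R) =
      univ.filter fun k : V → Fin L => M v' (k v') j = s (M v (k v) j) := by
    ext k
    simp [hR]
  rw [h2, Fintype.card_fin] at h1
  have h3 : R.card ≤ L := by
    have h4 : R.card ≤ (univ : Finset (Fin L)).card := by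
      refine Finset.card_le_card_of_injOn Prod.fst (fun _ _ => mem_univ _) ?_
      rintro ⟨a, b⟩ hp ⟨a', b'⟩ hp' haa
      have hp1 : M v' b j = s (M v a j) := by simpa [hR] using hp
      have hp2 : M v' b' j = s (M v a' j) := by simpa [hR] using hp'
      have haa' : a = a' := haa
      subst haa'
      by_contra hne
      have hbb : b ≠ b' := fun hb => hne (by rw [hb])
      exact hM b b' hbb j (hp1.trans hp2.symm)
    simpa using h4
  rcases Nat.eq_zero_or_pos L with hL | hL
  · have h6 : ∀ x y : ℕ, x * L ≤ y := fun x y => by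
      rw [hL, Nat.mul_zero]
      exact Nat.zero_le _
    exact h6 _ _
  · have h5 : (univ.filter fun k : V → Fin L => M v' (k v') j = s (M v (k v) j)).card * L * L ≤
        Fintype.card (V → Fin L) * L := by
      calc _ = (univ.filter fun k : V → Fin L => M v' (k v') j = s (M v (k v) j)).card * L ^ 2 := by
            ring
        _ = R.card * Fintype.card (V → Fin L) := h1
        _ ≤ L * Fintype.card (V → Fin L) := Nat.mul_le_mul_right _ h3
        _ = _ := by ring
    exact Nat.le_of_mul_le_mul_right h5 hL

lemma bad_sum (v : V) (hD : ∀ u ∈ U, Disj (M u)) :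
    (∑ k : V → Fin L, (bad G U σ M v k).ncard) * L ≤
      n * (U.filter fun u => G.Adj v u).card * Fintype.card (V → Fin L) := by
  classical
  have h1 : ∀ k : V → Fin L, (bad G U σ M v k).ncard ≤
      ∑ j : Fin n, ∑ v' ∈ U.filter (fun u => G.Adj v u),
        if M v' (k v') j = σ v v' (M v (k v) j) then 1 else 0 := by
    intro k
    have h2 : bad G U σ M v k = ((univ.filter fun j => ∃ v' ∈ U, G.Adj v v' ∧
        M v' (k v') j = σ v v' (M v (k v) j) : Finset (Fin n)) : Set (Fin n)) := by
      ext j
      simp [bad]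
    rw [h2, Set.ncard_coe_finset, Finset.card_filter]
    refine Finset.sum_le_sum fun j _ => ?_
    split_ifs with h
    · obtain ⟨v', hv', hadj, he⟩ := h
      have h3 := Finset.single_le_sum (f := fun v' => if M v' (k v') j = σ v v' (M v (k v) j)
        then 1 else 0) (s := U.filter (fun u => G.Adj v u)) (fun _ _ => Nat.zero_le _)
        (mem_filter.2 ⟨hv', hadj⟩)
      simp only [he, if_true] at h3
      exact h3
    · exact Nat.zero_le _
  calc (∑ k : V → Fin L, (bad G U σ M v k).ncard) * L
      ≤ (∑ k : V → Fin L, ∑ j : Fin n, ∑ v' ∈ U.filter (fun u => G.Adj v u),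
        if M v' (k v') j = σ v v' (M v (k v) j) then 1 else 0) * L :=
        Nat.mul_le_mul_right _ (Finset.sum_le_sum fun k _ => h1 k)
    _ = ∑ j : Fin n, ∑ v' ∈ U.filter (fun u => G.Adj v u),
        (univ.filter fun k : V → Fin L => M v' (k v') j = σ v v' (M v (k v) j)).card * L := by
        rw [Finset.sum_comm, Finset.sum_mul]
        refine Finset.sum_congr rfl fun j _ => ?_
        rw [Finset.sum_comm, Finset.sum_mul]
        refine Finset.sum_congr rfl fun v' _ => ?_
        rw [Finset.card_filter]
    _ ≤ ∑ j : Fin n, ∑ v' ∈ U.filter (fun u => G.Adj v u), Fintype.card (V → Fin L) := by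
        refine Finset.sum_le_sum fun j _ => Finset.sum_le_sum fun v' hv' => ?_
        rw [mem_filter] at hv'
        exact pair_le M v v' hv'.2.ne (hD v' hv'.1) j (σ v v')
    _ = n * (U.filter fun u => G.Adj v u).card * Fintype.card (V → Fin L) := by
        rw [Finset.sum_const, Finset.sum_const, Finset.card_univ, Fintype.card_fin, smul_eq_mul,
          smul_eq_mul, Nat.mul_assoc]

open Classical in
/-- the events -/
noncomputable def ev (m : ℕ) (X : Finset V) (W : V → Mx n) (τ : ℝ) :
    V ⊕ V → Finset (V → Fin L)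
  | .inl v => if v ∈ U then univ.filter fun k => m < (bad G U σ M v k).ncard else ∅
  | .inr w => if w ∈ X then univ.filter fun k => ¬ Near3 τ (W w) (newW G σ M k U W w) else ∅

/-- the coordinates of the events -/
def co : V ⊕ V → Finset V
  | .inl v => if v ∈ U then insert v (U.filter fun u => G.Adj v u) else ∅
  | .inr w => U.filter fun u => G.Adj w u

lemma ev_dep (m : ℕ) (X : Finset V) (W : V → Mx n) (τ : ℝ) (i : V ⊕ V) :
    DepOn (ev G U σ M m X W τ i) (co G U i) := by
  classical
  rcases i with v | w
  · intro k k' h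
    by_cases hv : v ∈ U
    · simp only [co, hv, if_true, mem_insert, mem_filter] at h
      have h1 : bad G U σ M v k = bad G U σ M v k' :=
        bad_dep G U σ M v k k' (h v (Or.inl rfl)) fun u hu hadj => h u (Or.inr ⟨hu, hadj⟩)
      simp only [ev, hv, if_true, mem_filter, mem_univ, true_and, h1]
    · simp only [ev, hv, if_false, notMem_empty]
  · intro k k' h
    by_cases hw : w ∈ X
    · have h1 : newW G σ M k U W w = newW G σ M k' U W w := by
        funext j c
        unfold newW
        congr 1
        refine Finset.prod_congr rfl fun u hu => ?_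
        rw [h u hu]
      simp only [ev, hw, if_true, mem_filter, mem_univ, true_and, h1]
    · simp only [ev, hw, if_false, notMem_empty]

/-- the weights of the local lemma -/
noncomputable def xx (V : Type) (d D : ℕ) : V ⊕ V → ℝ
  | .inl _ => 1 / (8 * ((d : ℝ) + 1) ^ 2)
  | .inr _ => 1 / (8 * ((d : ℝ) + 1) * D)

lemma xx_sum (d D : ℕ) (hD1 : 1 ≤ D) (hd : ∀ v, (U.filter fun u => G.Adj v u).card ≤ d)
    (hD : ∀ v, (Finset.univ.filter (G.Adj v)).card ≤ D) (u : V) :
    ∑ i ∈ univ.filter (fun i => u ∈ co G U i), xx V d D i ≤ 1 / (4 * ((d : ℝ) + 1)) := by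
  classical
  have hd0 : (0 : ℝ) < (d : ℝ) + 1 := by positivity
  have hD0 : (0 : ℝ) < (D : ℝ) := by exact_mod_cast hD1
  rw [Finset.sum_filter, Fintype.sum_sum_type, ← Finset.sum_filter, ← Finset.sum_filter]
  have h1 : ∑ v ∈ univ.filter (fun v => u ∈ co G U (.inl v)), xx V d D (.inl v) ≤
      1 / (8 * ((d : ℝ) + 1)) := by
    have hc : (univ.filter (fun v => u ∈ co G U (.inl v))).card ≤ d + 1 := by
      refine (Finset.card_le_card (t := insert u (U.filter fun v => G.Adj u v)) ?_).trans
        ((Finset.card_insert_le _ _).trans (Nat.succ_le_succ (hd u)))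
      intro v hv
      rw [mem_filter] at hv
      have h2 := hv.2
      by_cases hvU : v ∈ U
      · simp only [co, hvU, if_true, mem_insert, mem_filter] at h2
        rcases h2 with h2 | h2
        · rw [h2]
          exact mem_insert_self _ _
        · exact mem_insert_of_mem (mem_filter.2 ⟨hvU, h2.2.symm⟩)
      · simp only [co, hvU, if_false, notMem_empty] at h2
    simp only [xx]
    rw [Finset.sum_const, nsmul_eq_mul]
    have hc' : ((univ.filter (fun v => u ∈ co G U (.inl v))).card : ℝ) ≤ (d : ℝ) + 1 := by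
      exact_mod_cast hc
    calc _ ≤ ((d : ℝ) + 1) * (1 / (8 * ((d : ℝ) + 1) ^ 2)) :=
          mul_le_mul_of_nonneg_right hc' (by positivity)
      _ = 1 / (8 * ((d : ℝ) + 1)) := by field_simp
  have h2 : ∑ w ∈ univ.filter (fun w => u ∈ co G U (.inr w)), xx V d D (.inr w) ≤
      1 / (8 * ((d : ℝ) + 1)) := by
    have hc : (univ.filter (fun w => u ∈ co G U (.inr w))).card ≤ D := by
      refine (Finset.card_le_card ?_).trans (hD u)
      intro w hw
      rw [mem_filter] at hw ⊢
      have h2 := hw.2
      simp only [co, mem_filter] at h2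
      exact ⟨mem_univ _, h2.2.symm⟩
    simp only [xx]
    rw [Finset.sum_const, nsmul_eq_mul]
    have hc' : ((univ.filter (fun w => u ∈ co G U (.inr w))).card : ℝ) ≤ (D : ℝ) := by
      exact_mod_cast hc
    calc _ ≤ (D : ℝ) * (1 / (8 * ((d : ℝ) + 1) * D)) :=
          mul_le_mul_of_nonneg_right hc' (by positivity)
      _ = 1 / (8 * ((d : ℝ) + 1)) := by field_simp
  have h3 : 1 / (8 * ((d : ℝ) + 1)) + 1 / (8 * ((d : ℝ) + 1)) = 1 / (4 * ((d : ℝ) + 1)) := by
    field_simp
    norm_num
  linarith

omit [Fintype V] in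
lemma co_card (d : ℕ) (hd : ∀ v, (U.filter fun u => G.Adj v u).card ≤ d) (i : V ⊕ V) :
    (co G U i).card ≤ d + 1 := by
  rcases i with v | w
  · simp only [co]
    split_ifs
    · exact (Finset.card_insert_le _ _).trans (Nat.succ_le_succ (hd v))
    · simp
  · simp only [co]
    exact (hd w).trans (Nat.le_succ d)

end

theorem stage (ht : S_TAIL) : S_STAGE := by
  classical
  intro V _ _ G _ n L D d m U X σ M W A τ hL hD1 hM hd hD hW hA hτ hτ2 h5 h16
  have hne : Nonempty (V → Fin L) := ⟨fun _ => ⟨0, by omega⟩⟩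
  have hd0 : (0 : ℝ) < (d : ℝ) + 1 := by positivity
  have hD0 : (0 : ℝ) < (D : ℝ) := by exact_mod_cast hD1
  have hd1 : (1 : ℝ) ≤ (d : ℝ) + 1 := by
    have : (0 : ℝ) ≤ d := Nat.cast_nonneg d
    linarith
  have hD1' : (1 : ℝ) ≤ (D : ℝ) := by exact_mod_cast hD1
  have hx0 : ∀ i, 0 ≤ xx V d D i := by
    intro i
    rcases i with v | w <;> simp only [xx] <;> positivity
  have hx1 : ∀ i, xx V d D i ≤ 1 / 2 := by
    intro i
    rcases i with v | w
    · simp only [xx]
      refine one_div_le_one_div_of_le (by norm_num) ?_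
      nlinarith
    · simp only [xx]
      refine one_div_le_one_div_of_le (by norm_num) ?_
      nlinarith
  have hhalf : ∀ i : V ⊕ V, (1 : ℝ) / 2 ≤
      Real.exp (-(2 * (((co G U i).card : ℝ) * (1 / (4 * ((d : ℝ) + 1)))))) := by
    intro i
    have h1 : ((co G U i).card : ℝ) ≤ (d : ℝ) + 1 := by exact_mod_cast co_card G U d hd i
    have h2 : 2 * (((co G U i).card : ℝ) * (1 / (4 * ((d : ℝ) + 1)))) ≤ 1 / 2 := by
      calc 2 * (((co G U i).card : ℝ) * (1 / (4 * ((d : ℝ) + 1))))
          ≤ 2 * (((d : ℝ) + 1) * (1 / (4 * ((d : ℝ) + 1)))) := by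
            refine mul_le_mul_of_nonneg_left ?_ (by norm_num)
            exact mul_le_mul_of_nonneg_right h1 (by positivity)
        _ = 1 / 2 := by field_simp; norm_num
    have h3 := Real.add_one_le_exp (-(2 * (((co G U i).card : ℝ) * (1 / (4 * ((d : ℝ) + 1))))))
    linarith
  have hbd : ∀ i, ((ev G U σ M m X W τ i).card : ℝ) ≤
      (xx V d D i * (1 / 2)) * Fintype.card (V → Fin L) := by
    intro i
    rcases i with v | w
    · by_cases hv : v ∈ U
      · simp only [ev, hv, if_true, xx]
        set B := univ.filter fun k : V → Fin L => m < (bad G U σ M v k).ncard with hB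
        have h1 := bad_sum G U σ M v hM
        have h2 : B.card * (m + 1) ≤ ∑ k : V → Fin L, (bad G U σ M v k).ncard := by
          calc B.card * (m + 1) = ∑ k ∈ B, (m + 1) := by rw [Finset.sum_const, smul_eq_mul]
            _ ≤ ∑ k ∈ B, (bad G U σ M v k).ncard := by
                refine Finset.sum_le_sum fun k hk => ?_
                rw [hB, mem_filter] at hk
                exact hk.2
            _ ≤ _ := Finset.sum_le_sum_of_subset (Finset.subset_univ B)
        have h3 : 16 * (d + 1) ^ 2 * B.card ≤ Fintype.card (V → Fin L) := by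
          have hpos : 0 < (m + 1) * L := by
            have : 0 < L := by omega
            positivity
          refine Nat.le_of_mul_le_mul_right ?_ hpos
          calc 16 * (d + 1) ^ 2 * B.card * ((m + 1) * L)
              = 16 * (d + 1) ^ 2 * ((B.card * (m + 1)) * L) := by ring
            _ ≤ 16 * (d + 1) ^ 2 * ((∑ k : V → Fin L, (bad G U σ M v k).ncard) * L) :=
                Nat.mul_le_mul_left _ (Nat.mul_le_mul_right _ h2)
            _ ≤ 16 * (d + 1) ^ 2 * (n * (U.filter fun u => G.Adj v u).card *
                  Fintype.card (V → Fin L)) := Nat.mul_le_mul_left _ h1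
            _ ≤ 16 * (d + 1) ^ 2 * (n * (d + 1) * Fintype.card (V → Fin L)) := by
                refine Nat.mul_le_mul_left _ (Nat.mul_le_mul_right _ (Nat.mul_le_mul_left _ ?_))
                exact (hd v).trans (Nat.le_succ d)
            _ = 16 * (d + 1) ^ 3 * n * Fintype.card (V → Fin L) := by ring
            _ ≤ m * L * Fintype.card (V → Fin L) := Nat.mul_le_mul_right _ h16
            _ ≤ (m + 1) * L * Fintype.card (V → Fin L) :=
                Nat.mul_le_mul_right _ (Nat.mul_le_mul_right _ (Nat.le_succ m))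
            _ = Fintype.card (V → Fin L) * ((m + 1) * L) := by ring
        have h4 : 16 * ((d : ℝ) + 1) ^ 2 * B.card ≤ Fintype.card (V → Fin L) := by
          exact_mod_cast h3
        have h6 : 1 / (8 * ((d : ℝ) + 1) ^ 2) * (1 / 2) * (Fintype.card (V → Fin L) : ℝ) =
            (Fintype.card (V → Fin L) : ℝ) / (16 * ((d : ℝ) + 1) ^ 2) := by
          field_simp
          norm_num
        rw [h6, le_div_iff₀ (by positivity)]
        linarith
      · simp only [ev, hv, if_false, card_empty, Nat.cast_zero]
        have := hx0 (.inl v)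
        positivity
    · by_cases hw : w ∈ X
      · simp only [ev, hw, if_true, xx]
        have h1 := ht n L d V (U.filter fun u => G.Adj w u) M (fun u => (σ u w)⁻¹) (W w) A τ hL
          (fun u hu => hM u (mem_filter.1 hu).1) (hd w) (hW w hw) hA hτ hτ2
        have h2 : ((univ.filter fun k : V → Fin L =>
            ¬ Near3 τ (W w) (newW G σ M k U W w)).card : ℝ) =
            ({k : V → Fin L | ¬ Near3 τ (W w) fun j c => W w j c *
              ∏ u ∈ U.filter (fun u => G.Adj w u), fac (M u) (k u) (σ u w)⁻¹ j c}.ncard : ℝ) := by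
          rw [← Set.ncard_coe_finset]
          congr 2
          ext k
          rw [mem_coe, mem_filter]
          exact ⟨fun h => h.2, fun h => ⟨mem_univ _, h⟩⟩
        rw [h2]
        refine h1.trans ?_
        refine mul_le_mul_of_nonneg_right ?_ (Nat.cast_nonneg _)
        have h3 : 1 / (8 * ((d : ℝ) + 1) * D) * (1 / 2) = 1 / (16 * ((d : ℝ) + 1) * D) := by
          field_simp
          norm_num
        rw [h3, le_div_iff₀ (by positivity)]
        exact h5
      · simp only [ev, hw, if_false, card_empty, Nat.cast_zero]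
        have := hx0 (.inr w)
        positivity
  obtain ⟨k, hk⟩ := lll_exp (ev G U σ M m X W τ) (co G U) (ev_dep G U σ M m X W τ) (xx V d D) hx0
    hx1 (1 / (4 * ((d : ℝ) + 1))) (xx_sum G U d D hD1 hd hD) (by
      intro i
      refine (hbd i).trans ?_
      refine mul_le_mul_of_nonneg_right ?_ (Nat.cast_nonneg _)
      exact mul_le_mul_of_nonneg_left (hhalf i) (hx0 i))
  refine ⟨k, fun u hu => ?_, fun w hw => ?_⟩
  · have h1 := hk (.inl u)
    simp only [ev, hu, if_true, mem_filter, mem_univ, true_and, not_lt] at h1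
    exact h1
  · have h1 := hk (.inr w)
    simp only [ev, hw, if_true, mem_filter, mem_univ, true_and, not_not] at h1
    exact h1

end Pool.Agent.H111.AG
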